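import Mathlib
import Pool.Agent.Lib.P6adfe4.Subst

set_option autoImplicit false
set_option linter.style.haveILetI false

namespace Pool.Agent.Results.MP_6adfe4_lc.NotBasis

/-- A copy of the structure of natural numbers with successor: a function `succA` on the natural
numbers together with an isomorphism `iso` from the standard structure onto it. -/
structure Copy where
  /-- the successor function of the copy -/
  succA : ℕ → ℕ
  /-- the isomorphism from the standard structure onto the copy -/
  iso : ℕ ≃ ℕ
  iso_succ : ∀ x, iso (x + 1) = succA (iso x)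

namespace Copy

/-- The function `f` transported to the copy. -/
def lift (A : Copy) {k : ℕ} (f : (Fin k → ℕ) → ℕ) : (Fin k → ℕ) → ℕ :=
  fun v => A.iso (f (fun i => A.iso.symm (v i)))

/-- The function `f` is primitive recursive on the copy. -/
def PrimrecOn (A : Copy) {k : ℕ} (f : (Fin k → ℕ) → ℕ) : Prop := Primrec (A.lift f)

/-- The copy is punctually standard: its successor is primitive recursive, and the functions that
are primitive recursive on it are exactly the primitive recursive functions. -/
def PunctuallyStandard (A : Copy) : Prop :=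
  Primrec A.succA ∧ ∀ (k : ℕ) (f : (Fin k → ℕ) → ℕ), A.PrimrecOn f ↔ Primrec f

end Copy

/-- Levitz's class. -/
inductive Levitz : (ℕ → ℕ) → Prop
  | zero : Levitz (fun _ => 0)
  | one : Levitz (fun _ => 1)
  | id : Levitz (fun x => x)
  | add {f g : ℕ → ℕ} : Levitz f → Levitz g → Levitz (fun x => f x + g x)
  | mul {f g : ℕ → ℕ} : Levitz f → Levitz g → Levitz (fun x => f x * g x)
  | constPow (n : ℕ) (hn : 1 ≤ n) {f : ℕ → ℕ} : Levitz f → Levitz (fun x => n ^ f x)
  | selfPow {f : ℕ → ℕ} : Levitz f → Levitz (fun x => x ^ f x)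

open Pool.Agent.P6adfe4 in
theorem Levitz.skol {f : ℕ → ℕ} (hf : Levitz f) : Skol f := by
  induction hf with
  | zero => exact Skol.zero
  | one => exact Skol.one
  | id => exact Skol.id
  | add _ _ h1 h2 => exact Skol.add h1 h2
  | mul _ _ h1 h2 => exact Skol.mul h1 h2
  | constPow n _ _ h => exact Skol.pow (Skol.const n) h
  | selfPow _ h => exact Skol.pow Skol.id h

open Primrec in
theorem primrec_app : Primrec (fun v : Fin 1 → ℕ => v 0) :=
  fin_app.comp Primrec.id (Primrec.const 0)

/-- The copy given by a permutation of the natural numbers. -/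
def mk (c : ℕ ≃ ℕ) : Copy where
  succA n := c (c.symm n + 1)
  iso := c
  iso_succ x := by rw [Equiv.symm_apply_apply]

open Primrec in
theorem not_standard (c : ℕ ≃ ℕ) (hcn : ¬ Primrec c.symm) : ¬ (mk c).PunctuallyStandard := by
  rintro ⟨-, h⟩
  apply hcn
  have h1 : Primrec (fun v : Fin 1 → ℕ => c.symm (c (v 0) + 1)) := by
    refine (h 1 (fun v => c.symm (c (v 0) + 1))).1 ?_
    refine (succ.comp primrec_app).of_eq (fun v => ?_)
    show v 0 + 1 = c (c.symm (c (c.symm (v 0)) + 1))
    rw [Equiv.apply_symm_apply, Equiv.apply_symm_apply]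
  have hin : Primrec (fun n : ℕ => (fun _ : Fin 1 => n)) := fin_curry.2 fst.to₂
  have h2 : Primrec (fun n : ℕ => c.symm (c n + 1)) := h1.comp hin
  have h3 : Primrec (fun n : ℕ => (fun m => c.symm (c m + 1))^[n] (c.symm 0)) :=
    nat_iterate Primrec.id (Primrec.const _) (h2.comp snd).to₂
  refine h3.of_eq (fun n => ?_)
  induction n with
  | zero => rfl
  | succ n ih => rw [Function.iterate_succ_apply', ih, Equiv.apply_symm_apply]

open Pool.Agent.P6adfe4 in
/-- Levitz's class is not a basis for punctual standardness. -/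
theorem result : ∃ A : Copy,
    (∀ f : ℕ → ℕ, Levitz f → A.PrimrecOn (fun v : Fin 1 → ℕ => f (v 0))) ∧
      ¬ A.PunctuallyStandard := by
  refine ⟨mk (cpy val_rep), ?_, not_standard _ (cpy_not_primrec primrec_dec val_rep
    not_primrec_val)⟩
  intro f hf
  obtain ⟨fhat, h1, h2⟩ := hf.skol.lift
  exact (cpy_lift primrec_dec primrec_rep val_rep h1 h2).comp primrec_app

end Pool.Agent.Results.MP_6adfe4_lc.NotBasis
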